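import Pool.Agent.Q67.PI.Steps

/-!
Minimal PI systems: the set of the points whose diagonal points are minimal for all products of
powers is residual.
-/

open Set Filter Topology

set_option autoImplicit false
set_option linter.unusedSectionVars false
set_option linter.unusedVariables false

universe u v w

namespace Pool.Agent.Q67.PI

/-- A system: a homeomorphism `T` of a nonempty compact metric space `X`. -/
structure Sys where
  X : Type u
  [met : MetricSpace X]
  [cpt : CompactSpace X]
  [nonempty : Nonempty X]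
  T : X ≃ₜ X

attribute [instance] Sys.met Sys.cpt Sys.nonempty

/-- The orbit closure of `z` under the homeomorphism `S`. -/
def orbitClosure {Z : Type*} [TopologicalSpace Z] (S : Z ≃ₜ Z) (z : Z) : Set Z :=
  closure (range fun n : ℤ => (S ^ n) z)

/-- The point `z` is a minimal point of `(Z, S)`: every orbit in its orbit closure is dense in the
orbit closure. -/
def MinimalPoint {Z : Type*} [TopologicalSpace Z] (S : Z ≃ₜ Z) (z : Z) : Prop :=
  ∀ w ∈ orbitClosure S z, orbitClosure S w = orbitClosure S z

/-- The system is minimal: every orbit is dense. -/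
def Sys.Minimal (A : Sys.{u}) : Prop := ∀ x : A.X, orbitClosure A.T x = univ

/-- Factor maps `A → B`. -/
structure FactorMap (A B : Sys.{u}) (π : A.X → B.X) : Prop where
  cont : Continuous π
  surj : Function.Surjective π
  equi : ∀ x, π (A.T x) = B.T (π x)

/-- The factor map `π` of `A` is a proximal extension: points with the same image are proximal. -/
def Proximal (A B : Sys.{u}) (π : A.X → B.X) : Prop :=
  ∀ x x', π x = π x' → ∀ ε > 0, ∃ n : ℤ, dist ((A.T ^ n) x) ((A.T ^ n) x') < ε

/-- The factor map `π` of `A` is an equicontinuous extension. -/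
def Equicont (A B : Sys.{u}) (π : A.X → B.X) : Prop :=
  ∀ ε > 0, ∃ δ > 0, ∀ x x', π x = π x' → dist x x' < δ →
    ∀ n : ℤ, dist ((A.T ^ n) x) ((A.T ^ n) x') < ε

/-- A tower of minimal systems `Z lam`, `lam ≤ η`, with factor maps `π ν lam : Z lam → Z ν`,
`ν ≤ lam ≤ η`: `Z 0` is a point, each `Z (lam + 1) → Z lam` is a proximal or an equicontinuous
extension, and for limit ordinals `lam` the system `Z lam` is the inverse limit of the `Z ν`,
`ν < lam`, that is, the maps `π ν lam` separate its points. -/
structure IsTower (η : Ordinal.{v}) (Z : Ordinal.{v} → Sys.{u})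
    (π : ∀ ν lam : Ordinal.{v}, (Z lam).X → (Z ν).X) : Prop where
  minimal : ∀ lam ≤ η, (Z lam).Minimal
  factor : ∀ lam ≤ η, ∀ ν ≤ lam, FactorMap (Z lam) (Z ν) (π ν lam)
  comp : ∀ lam ≤ η, ∀ ν ≤ lam, ∀ κ ≤ ν, ∀ x, π κ ν (π ν lam x) = π κ lam x
  zero : Subsingleton (Z 0).X
  succ : ∀ lam < η, Proximal (Z (lam + 1)) (Z lam) (π lam (lam + 1)) ∨
    Equicont (Z (lam + 1)) (Z lam) (π lam (lam + 1))
  limit : ∀ lam ≤ η, Order.IsSuccLimit lam →
    ∀ x x' : (Z lam).X, (∀ ν < lam, π ν lam x = π ν lam x') → x = x'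

/-- The system `A` is a minimal PI system: it is minimal, and it has a proximal extension `Z η`
which is strictly PI, the top of a tower. -/
def Sys.IsPI (A : Sys.{u}) : Prop :=
  A.Minimal ∧ ∃ (η : Ordinal.{v}) (Z : Ordinal.{v} → Sys.{u})
    (π : ∀ ν lam : Ordinal.{v}, (Z lam).X → (Z ν).X), IsTower η Z π ∧
    ∃ φ : (Z η).X → A.X, FactorMap (Z η) A φ ∧ Proximal (Z η) A φ

/-- The homeomorphism `∏ T^(a i)` of `X^ι`. -/
def powers {X : Type*} [TopologicalSpace X] {ι : Type*} (T : X ≃ₜ X) (a : ι → ℤ) :
    (ι → X) ≃ₜ (ι → X) := Homeomorph.piCongrRight fun i => T ^ a i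

theorem tower_residual {η : Ordinal.{v}} {Z : Ordinal.{v} → Sys.{u}}
    {π : ∀ ν lam : Ordinal.{v}, (Z lam).X → (Z ν).X} (h : IsTower η Z π) {a : ℕ → ℤ}
    (ha : ∀ j, a j ≠ 0) : ∀ lam ≤ η, DM (Z lam).T a ∈ residual (Z lam).X := by
  intro lam
  induction lam using Ordinal.limitRecOn with
  | zero =>
    intro _
    have := h.zero
    convert univ_mem
    rw [eq_univ_iff_forall]
    intro x w hw
    rw [Subsingleton.elim w (dg x)]
    exact mem_OC (pr_act _ a).isAct _
  | add_one lam ih =>
    intro hl
    have hl' : lam < η := (lt_add_one lam).trans_le hl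
    have hf := h.factor _ hl lam (lt_add_one lam).le
    rcases h.succ lam hl' with hp | hq
    · exact prox_step (h.minimal _ hl) (h.minimal _ hl'.le) hf.cont hf.surj hf.equi hp ha
        (ih hl'.le)
    · exact eq_step (h.minimal _ hl) hf.cont hf.surj hf.equi hq (ih hl'.le)
  | limit lam hlim ih =>
    intro hl
    refine limit_step (ι := Set.Iio lam) (Y := fun i => (Z i).X) (S := fun i => (Z i).T)
      (π := fun i => π i lam) (h.minimal _ hl) (fun i => (h.factor _ hl i i.2.le).cont)
      (fun i => (h.factor _ hl i i.2.le).surj) (fun i => (h.factor _ hl i i.2.le).equi) ?_ ?_ ?_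
    · intro i k hik x x' hxx
      rw [← h.comp _ hl k k.2.le i hik, ← h.comp _ hl k k.2.le i hik, hxx]
    · intro x x' hxx
      exact h.limit _ hl hlim x x' fun ν hν => hxx ⟨ν, hν⟩
    · exact fun i => ih i i.2 (i.2.le.trans hl)

theorem PI_residual {A : Sys.{u}} (h : Sys.IsPI.{u, v} A) {a : ℕ → ℤ} (ha : ∀ j, a j ≠ 0) :
    DM A.T a ∈ residual A.X := by
  obtain ⟨_, η, Z, π, ht, φ, hφ, _⟩ := h
  exact factor_step (ht.minimal _ le_rfl) hφ.cont hφ.surj hφ.equi
    (tower_residual ht ha η le_rfl)

theorem powers_zpow {X : Type*} [TopologicalSpace X] {ι : Type*} (T : X ≃ₜ X) (a : ι → ℤ) (n : ℤ)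
    (z : ι → X) : (powers T a ^ n) z = fun i => it T (a i * n) (z i) := by
  have hT := it_act T
  have h1 : ∀ z, powers T a z = fun i => it T (a i) (z i) := fun z => rfl
  have h2 : ∀ z, (powers T a)⁻¹ z = fun i => it T (-a i) (z i) := by
    intro z
    refine (powers T a).injective ?_
    rw [show powers T a ((powers T a)⁻¹ z) = z from (powers T a).apply_symm_apply z, h1]
    funext i
    exact (hT.cancel_neg _ _).symm
  induction n using Int.induction_on generalizing z with
  | zero => funext i; simp [hT.zero]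
  | succ n ih =>
    rw [zpow_add_one, Homeomorph.mul_apply, ih, h1]
    funext i
    simp only
    rw [← hT.add]
    congr 1
    ring
  | pred n ih =>
    rw [zpow_sub_one, Homeomorph.mul_apply, ih, h2]
    funext i
    simp only
    rw [← hT.add]
    congr 1
    ring

theorem minimalPoint_of {Z : Type*} [TopologicalSpace Z] {S : Z ≃ₜ Z} {z : Z}
    (h : MinPt (it S) z) : MinimalPoint S z := fun w hw =>
  Subset.antisymm (OC_mono (it_act S) hw) (OC_mono (it_act S) (h w hw))

/-- For the points of `DM T b`, where `b` takes all nonzero values, all products of powers have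
minimal diagonal points. -/
theorem all_powers {X : Type*} [MetricSpace X] [CompactSpace X] {T : X ≃ₜ X} {b : ℕ → ℤ}
    (hb : ∀ k : ℤ, k ≠ 0 → ∃ j, b j = k) {x : X} (hx : x ∈ DM T b) {ι : Type*} (a : ι → ℤ) :
    MinimalPoint (powers T a) fun _ => x := by
  classical
  refine minimalPoint_of ?_
  choose! k hk using hb
  let f : (ℕ → X) → (ι → X) := fun z i => if a i = 0 then x else z (k (a i))
  have hf : Continuous f := by
    refine continuous_pi fun i => ?_
    by_cases h : a i = 0
    · simpa [f, h] using continuous_const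
    · simpa [f, h] using continuous_apply (k (a i))
  have h1 : MinPt (it (powers T a)) (f (dg x)) := by
    refine MinPt.map hf (fun n z => ?_) hx
    rw [it, powers_zpow]
    funext i
    by_cases h : a i = 0
    · simp [f, h, (it_act T).zero]
    · simp [f, h, pact, pr, hk _ h]
  convert h1 using 1
  funext i
  simp [f, dg]

/-- The main theorem. -/
theorem main {A : Sys.{u}} (h : Sys.IsPI.{u, v} A) :
    {x : A.X | ∀ (ι : Type w) (a : ι → ℤ), MinimalPoint (powers A.T a) fun _ => x}
      ∈ residual A.X := by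
  obtain ⟨e⟩ : Nonempty (ℕ ≃ {k : ℤ // k ≠ 0}) := by
    have : Infinite {k : ℤ // k ≠ 0} := by
      refine Infinite.of_injective (fun n : ℕ => (⟨(n : ℤ) + 1, by omega⟩ : {k : ℤ // k ≠ 0})) ?_
      intro m n hmn
      simpa using hmn
    exact ⟨(nonempty_denumerable _).some.eqv.symm⟩
  refine mem_of_superset (PI_residual h (a := fun j => (e j : ℤ)) fun j => (e j).2) ?_
  intro x hx ι a
  exact all_powers (b := fun j => (e j : ℤ)) (fun k hk => ⟨e.symm ⟨k, hk⟩, by simp⟩) hx a

end Pool.Agent.Q67.PI
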