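import Mathlib

/-!
Minimal sets and minimal points of actions by continuous maps.
-/

open Set Filter Topology

set_option autoImplicit false
set_option linter.unusedSectionVars false
set_option linter.unusedVariables false

namespace Pool.Agent.Q67.PI

section basic

variable {G Z : Type*} [AddGroup G] [TopologicalSpace Z]

/-- `ρ` is an action of the group `G` by continuous maps. -/
structure IsAct (ρ : G → Z → Z) : Prop where
  zero : ∀ z, ρ 0 z = z
  add : ∀ g h z, ρ (g + h) z = ρ g (ρ h z)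
  cont : ∀ g, Continuous (ρ g)

/-- The orbit closure. -/
def OC (ρ : G → Z → Z) (z : Z) : Set Z := closure (range fun g => ρ g z)

/-- Minimal points. -/
def MinPt (ρ : G → Z → Z) (z : Z) : Prop := ∀ w ∈ OC ρ z, z ∈ OC ρ w

/-- Minimal sets. -/
structure MinSet (ρ : G → Z → Z) (M : Set Z) : Prop where
  ne : M.Nonempty
  closed : IsClosed M
  inv : ∀ g, ∀ z ∈ M, ρ g z ∈ M
  dense : ∀ z ∈ M, M ⊆ OC ρ z

variable {ρ : G → Z → Z}

theorem IsAct.neg_cancel (h : IsAct ρ) (g : G) (z : Z) : ρ (-g) (ρ g z) = z := by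
  rw [← h.add, neg_add_cancel, h.zero]

theorem IsAct.cancel_neg (h : IsAct ρ) (g : G) (z : Z) : ρ g (ρ (-g) z) = z := by
  rw [← h.add, add_neg_cancel, h.zero]

theorem OC_closed (z : Z) : IsClosed (OC ρ z) := isClosed_closure

theorem mem_OC (h : IsAct ρ) (z : Z) : z ∈ OC ρ z :=
  subset_closure ⟨0, h.zero z⟩

theorem orb_mem (g : G) (z : Z) : ρ g z ∈ OC ρ z := subset_closure ⟨g, rfl⟩

theorem OC_inv (h : IsAct ρ) {z w : Z} (hw : w ∈ OC ρ z) (g : G) : ρ g w ∈ OC ρ z := by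
  refine map_mem_closure (h.cont g) hw ?_
  rintro _ ⟨k, rfl⟩
  exact ⟨g + k, h.add g k z⟩

theorem OC_sub {A : Set Z} (hA : IsClosed A) (hinv : ∀ g, ∀ z ∈ A, ρ g z ∈ A) {z : Z}
    (hz : z ∈ A) : OC ρ z ⊆ A := by
  refine closure_minimal ?_ hA
  rintro _ ⟨g, rfl⟩
  exact hinv g z hz

theorem OC_mono (h : IsAct ρ) {z w : Z} (hw : w ∈ OC ρ z) : OC ρ w ⊆ OC ρ z :=
  OC_sub (OC_closed z) (fun g _ hx => OC_inv h hx g) hw

theorem MinSet.eq (h : IsAct ρ) {M : Set Z} (hM : MinSet ρ M) {z : Z} (hz : z ∈ M) :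
    OC ρ z = M :=
  (OC_sub hM.closed hM.inv hz).antisymm (hM.dense z hz)

theorem MinSet.minPt (h : IsAct ρ) {M : Set Z} (hM : MinSet ρ M) {z : Z} (hz : z ∈ M) :
    MinPt ρ z := fun w hw => by
  rw [hM.eq h hz] at hw
  exact hM.dense w hw hz

theorem MinPt.minSet (h : IsAct ρ) {z : Z} (hz : MinPt ρ z) : MinSet ρ (OC ρ z) where
  ne := ⟨z, mem_OC h z⟩
  closed := OC_closed z
  inv := fun g _ hx => OC_inv h hx g
  dense := fun w hw => OC_mono h (hz w hw)

theorem MinSet.disj (h : IsAct ρ) {M M' : Set Z} (hM : MinSet ρ M) (hM' : MinSet ρ M')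
    {z : Z} (hz : z ∈ M) (hz' : z ∈ M') : M = M' := by
  rw [← hM.eq h hz, ← hM'.eq h hz']

theorem MinSet.sub_of_mem (h : IsAct ρ) {M A : Set Z} (hM : MinSet ρ M) (hA : IsClosed A)
    (hinv : ∀ g, ∀ z ∈ A, ρ g z ∈ A) {z : Z} (hz : z ∈ M) (hz' : z ∈ A) : M ⊆ A := by
  rw [← hM.eq h hz]
  exact OC_sub hA hinv hz'

/-- Existence of minimal sets. -/
theorem exists_minSet [CompactSpace Z] (h : IsAct ρ) {A : Set Z} (hA : IsClosed A)
    (hne : A.Nonempty) (hinv : ∀ g, ∀ z ∈ A, ρ g z ∈ A) : ∃ M ⊆ A, MinSet ρ M := by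
  let S : Set (Set Z) := {B | IsClosed B ∧ B.Nonempty ∧ (∀ g, ∀ z ∈ B, ρ g z ∈ B) ∧ B ⊆ A}
  have hAS : A ∈ S := ⟨hA, hne, hinv, Subset.rfl⟩
  have hz : ∀ c ⊆ S, IsChain (· ⊆ ·) c → c.Nonempty → ∃ lb ∈ S, ∀ s ∈ c, lb ⊆ s := by
    intro c hc hch hcne
    refine ⟨⋂₀ c, ⟨isClosed_sInter fun t ht => (hc ht).1, ?_, ?_, ?_⟩, fun s hs => sInter_subset_of_mem hs⟩
    · have : Nonempty c := hcne.to_subtype
      rw [sInter_eq_iInter]
      refine IsCompact.nonempty_iInter_of_directed_nonempty_isCompact_isClosed _ ?_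
        (fun t => (hc t.2).2.1) (fun t => (hc t.2).1.isCompact) (fun t => (hc t.2).1)
      intro s t
      rcases hch.total s.2 t.2 with h' | h'
      · exact ⟨s, Subset.rfl, h'⟩
      · exact ⟨t, h', Subset.rfl⟩
    · intro g z hz t ht
      exact (hc ht).2.2.1 g z (hz t ht)
    · obtain ⟨t, ht⟩ := hcne
      exact (sInter_subset_of_mem ht).trans (hc ht).2.2.2
  obtain ⟨M, hMA, hM⟩ := zorn_superset_nonempty S hz A hAS
  refine ⟨M, hMA, hM.prop.2.1, hM.prop.1, hM.prop.2.2.1, fun z hz => ?_⟩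
  have h1 : OC ρ z ⊆ M := OC_sub hM.prop.1 hM.prop.2.2.1 hz
  exact hM.le_of_le ⟨OC_closed z, ⟨z, mem_OC h z⟩, fun g _ hx => OC_inv h hx g,
    h1.trans hM.prop.2.2.2⟩ h1

end basic

section maps

variable {G Z Y : Type*} [AddGroup G] [TopologicalSpace Z] [TopologicalSpace Y]
  {ρ : G → Z → Z} {θ : G → Y → Y} {f : Z → Y}

theorem OC_map (hf : Continuous f) (he : ∀ g z, f (ρ g z) = θ g (f z)) {z w : Z}
    (hw : w ∈ OC ρ z) : f w ∈ OC θ (f z) := by
  refine map_mem_closure hf hw ?_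
  rintro _ ⟨k, rfl⟩
  exact ⟨k, (he k z).symm⟩

theorem OC_image [CompactSpace Z] [T2Space Y] (hf : Continuous f)
    (he : ∀ g z, f (ρ g z) = θ g (f z)) (z : Z) : f '' OC ρ z = OC θ (f z) := by
  refine Subset.antisymm ?_ ?_
  · rintro _ ⟨w, hw, rfl⟩
    exact OC_map hf he hw
  · refine closure_minimal ?_ ((OC_closed z).isCompact.image hf).isClosed
    rintro _ ⟨g, rfl⟩
    exact ⟨ρ g z, orb_mem g z, he g z⟩

theorem MinPt.map [CompactSpace Z] [T2Space Y] (hf : Continuous f)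
    (he : ∀ g z, f (ρ g z) = θ g (f z)) {z : Z} (hz : MinPt ρ z) : MinPt θ (f z) := by
  intro w hw
  rw [← OC_image hf he] at hw
  obtain ⟨v, hv, rfl⟩ := hw
  exact OC_map hf he (hz v hv)

theorem MinSet.map [CompactSpace Z] [T2Space Y] (h : IsAct ρ) (hf : Continuous f)
    (he : ∀ g z, f (ρ g z) = θ g (f z)) {M : Set Z} (hM : MinSet ρ M) :
    MinSet θ (f '' M) where
  ne := hM.ne.image f
  closed := (hM.closed.isCompact.image hf).isClosed
  inv := by
    rintro g _ ⟨z, hz, rfl⟩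
    exact ⟨ρ g z, hM.inv g z hz, he g z⟩
  dense := by
    rintro _ ⟨z, hz, rfl⟩
    rw [← OC_image hf he, hM.eq h hz]

end maps

/-! ### Semi-open maps, residual sets -/

section residual

variable {X Y : Type*} [TopologicalSpace X] [TopologicalSpace Y] {f : X → Y}

/-- The image of a nonempty open set has nonempty interior. -/
def SemiOpen (f : X → Y) : Prop := ∀ U : Set X, IsOpen U → U.Nonempty → (interior (f '' U)).Nonempty

theorem residual_preimage (hf : Continuous f) (hs : SemiOpen f) {C : Set Y}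
    (hC : C ∈ residual Y) : f ⁻¹' C ∈ residual X := by
  obtain ⟨S, h1, h2, h3, h4⟩ := mem_residual_iff.1 hC
  refine mem_residual_iff.2 ⟨(fun t => f ⁻¹' t) '' S, ?_, ?_, h3.image _, ?_⟩
  · rintro _ ⟨t, ht, rfl⟩
    exact (h1 t ht).preimage hf
  · rintro _ ⟨t, ht, rfl⟩
    refine dense_iff_inter_open.2 fun U hU hne => ?_
    obtain ⟨y, hy, hyt⟩ := (h2 t ht).inter_open_nonempty _ isOpen_interior (hs U hU hne)
    obtain ⟨x, hx, rfl⟩ := interior_subset hy
    exact ⟨x, hx, hyt⟩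
  · intro x hx
    refine h4 fun t ht => ?_
    exact hx (f ⁻¹' t) ⟨t, ht, rfl⟩

theorem compl_frontier_residual_open {O : Set Y} (hO : IsOpen O) : (frontier O)ᶜ ∈ residual Y := by
  refine residual_of_dense_open isClosed_frontier.isOpen_compl ?_
  rw [← interior_eq_empty_iff_dense_compl]
  rw [← frontier_compl]
  exact interior_frontier hO.isClosed_compl

theorem compl_frontier_residual_closed {K : Set Y} (hK : IsClosed K) :
    (frontier K)ᶜ ∈ residual Y := by
  refine residual_of_dense_open isClosed_frontier.isOpen_compl ?_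
  rw [← interior_eq_empty_iff_dense_compl]
  exact interior_frontier hK

/-- Images of residual sets under semi-open maps. -/
theorem residual_image [CompactSpace X] [T2Space X] [SecondCountableTopology X] [T2Space Y]
    (hf : Continuous f) (hsur : Function.Surjective f) (hs : SemiOpen f) {D : Set X}
    (hD : D ∈ residual X) : f '' D ∈ residual Y := by
  obtain ⟨S, h1, h2, h3, h4⟩ := mem_residual_iff.1 hD
  set B := TopologicalSpace.countableBasis X with hB
  have hBc : B.Countable := TopologicalSpace.countable_countableBasis X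
  have hBb : TopologicalSpace.IsTopologicalBasis B :=
    TopologicalSpace.isBasis_countableBasis X
  have e1 : (⋂ V ∈ B, (frontier (f '' closure V))ᶜ) ∈ residual Y :=
    (countable_bInter_mem hBc).2 fun V _ =>
      compl_frontier_residual_closed ((isClosed_closure.isCompact.image hf).isClosed)
  have e2 : (⋂ V ∈ B, ⋂ t ∈ S, (frontier (interior (f '' (V ∩ t))))ᶜ) ∈ residual Y :=
    (countable_bInter_mem hBc).2 fun V _ => (countable_bInter_mem h3).2 fun t _ =>
      compl_frontier_residual_open isOpen_interior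
  filter_upwards [e1, e2] with y hy1 hy2
  simp only [mem_iInter] at hy1 hy2
  -- density in the fibre
  have key : ∀ t ∈ S, ∀ x, f x = y → ∀ O : Set X, IsOpen O → x ∈ O →
      ∃ x', f x' = y ∧ x' ∈ O ∧ x' ∈ t := by
    intro t ht x hx O hO hxO
    obtain ⟨V', hV'B, hxV', hV'O⟩ := hBb.exists_subset_of_mem_open hxO hO
    obtain ⟨V₁, hV₁, hxV₁, hcl⟩ : ∃ V₁ : Set X, IsOpen V₁ ∧ x ∈ V₁ ∧ closure V₁ ⊆ V' := by
      have hV'o := hBb.isOpen hV'B
      obtain ⟨W, hW1, hW2, hW3⟩ := exists_mem_nhds_isClosed_subset (hV'o.mem_nhds hxV')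
      exact ⟨interior W, isOpen_interior, mem_interior_iff_mem_nhds.2 hW1,
        (closure_minimal interior_subset hW2).trans hW3⟩
    obtain ⟨V, hVB, hxV, hVV₁⟩ := hBb.exists_subset_of_mem_open hxV₁ hV₁
    have hVV' : closure V ⊆ V' := (closure_mono hVV₁).trans hcl
    have hyi : y ∈ interior (f '' closure V) := by
      by_contra hcon
      refine hy1 V hVB ?_
      rw [(isClosed_closure.isCompact.image hf).isClosed.frontier_eq]
      exact ⟨⟨x, subset_closure hxV, hx⟩, hcon⟩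
    have hyc : y ∈ closure (interior (f '' (V' ∩ t))) := by
      rw [mem_closure_iff]
      intro W' hW' hyW'
      have hW2 : (W' ∩ interior (f '' closure V)).Nonempty := ⟨y, hyW', hyi⟩
      obtain ⟨_, hw1, hw2⟩ := hW2
      obtain ⟨x₁, hx₁, rfl⟩ := interior_subset hw2
      have ho : IsOpen (V' ∩ f ⁻¹' W') := (hBb.isOpen hV'B).inter (hW'.preimage hf)
      obtain ⟨x₂, hx₂, hx₂t⟩ := (h2 t ht).inter_open_nonempty _ ho ⟨x₁, hVV' hx₁, hw1⟩
      obtain ⟨y₃, hy₃⟩ := hs _ (ho.inter (h1 t ht)) ⟨x₂, hx₂, hx₂t⟩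
      refine ⟨y₃, ?_, ?_⟩
      · obtain ⟨x₃, hx₃, rfl⟩ := interior_subset hy₃
        exact hx₃.1.2
      · refine interior_mono (image_mono ?_) hy₃
        rintro z ⟨⟨hz1, _⟩, hz2⟩
        exact ⟨hz1, hz2⟩
    have hyI : y ∈ interior (f '' (V' ∩ t)) := by
      by_contra hcon
      refine hy2 V' hV'B t ht ?_
      rw [isOpen_interior.frontier_eq]
      exact ⟨hyc, hcon⟩
    obtain ⟨x', ⟨hx'V, hx't⟩, hx'y⟩ := interior_subset hyI
    exact ⟨x', hx'y, hV'O hx'V, hx't⟩
  -- Baire in the fibre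
  have hFc : IsClosed (f ⁻¹' {y}) := isClosed_singleton.preimage hf
  have : CompactSpace (f ⁻¹' {y}) := isCompact_iff_compactSpace.1 hFc.isCompact
  obtain ⟨x₀, hx₀⟩ := hsur y
  have : Nonempty (f ⁻¹' {y}) := ⟨⟨x₀, hx₀⟩⟩
  have hd : Dense (⋂ t ∈ S, (Subtype.val ⁻¹' t : Set (f ⁻¹' {y}))) := by
    refine dense_biInter_of_isOpen (fun t ht => (h1 t ht).preimage continuous_subtype_val) h3 ?_
    intro t ht
    refine dense_iff_inter_open.2 ?_
    rintro _ ⟨O, hO, rfl⟩ ⟨x, hx⟩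
    obtain ⟨x', e1, e2, e3⟩ := key t ht x x.2 O hO hx
    exact ⟨⟨x', e1⟩, e2, e3⟩
  obtain ⟨x, hx⟩ := hd.nonempty
  simp only [mem_iInter, mem_preimage] at hx
  exact ⟨x, h4 fun t ht => hx t ht, x.2⟩

/-- Factor maps of minimal systems are semi-open. -/
theorem semiOpen_of_minimal {G : Type*} [AddGroup G] [CompactSpace X] [T2Space X] [CompactSpace Y]
    [T2Space Y] {ρ : G → X → X} {θ : G → Y → Y} (hρ : IsAct ρ) (hθ : IsAct θ)
    (hmin : ∀ x, OC ρ x = univ) (hf : Continuous f) (hsur : Function.Surjective f)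
    (he : ∀ g x, f (ρ g x) = θ g (f x)) : SemiOpen f := by
  rintro U hU ⟨x₀, hx₀⟩
  obtain ⟨W, hW1, hW2, hW3⟩ := exists_mem_nhds_isClosed_subset (hU.mem_nhds hx₀)
  have hcov : (⋃ g, ρ g ⁻¹' interior W) = univ := by
    rw [eq_univ_iff_forall]
    intro x
    have h1 : x₀ ∈ closure (range fun g => ρ g x) := by
      have := hmin x
      rw [OC] at this
      rw [this]; trivial
    obtain ⟨_, h2, ⟨g, rfl⟩⟩ := mem_closure_iff.1 h1 (interior W) isOpen_interior
      (mem_interior_iff_mem_nhds.2 hW1)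
    exact mem_iUnion.2 ⟨g, h2⟩
  obtain ⟨F, hF⟩ := isCompact_univ.elim_finite_subcover (fun g => ρ g ⁻¹' interior W)
    (fun g => isOpen_interior.preimage (hρ.cont g)) hcov.ge
  have : Nonempty Y := ⟨f x₀⟩
  have hcovY : (⋃ g : F, θ g ⁻¹' (f '' W)) = univ := by
    rw [eq_univ_iff_forall]
    intro y
    obtain ⟨x, rfl⟩ := hsur y
    have := hF (mem_univ x)
    simp only [mem_iUnion, exists_prop] at this
    obtain ⟨g, hg, hx⟩ := this
    refine mem_iUnion.2 ⟨⟨g, hg⟩, ?_⟩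
    exact ⟨ρ g x, interior_subset hx, he g x⟩
  have hcl : IsClosed (f '' W) := (hW2.isCompact.image hf).isClosed
  obtain ⟨g, hg⟩ := nonempty_interior_of_iUnion_of_closed
    (fun g : F => hcl.preimage (hθ.cont g)) hcovY
  obtain ⟨y, hy⟩ := hg
  refine ⟨θ g y, ?_⟩
  have hopen : IsOpen (θ (-(g : G)) ⁻¹' interior (θ g ⁻¹' (f '' W))) :=
    isOpen_interior.preimage (hθ.cont _)
  refine interior_mono (image_mono hW3) ?_
  refine interior_maximal ?_ hopen ?_
  · intro z hz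
    have := interior_subset hz
    rw [mem_preimage, hθ.cancel_neg] at this
    exact this
  · rw [mem_preimage, hθ.neg_cancel]
    exact hy

end residual

end Pool.Agent.Q67.PI
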