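import Pool.Agent.Q67.PI.Dyn

/-!
Idempotents in Ellis semigroups: distal extensions and Glasner's theorem on the diagonal.
-/

open Set Filter Topology

set_option autoImplicit false
set_option linter.unusedSectionVars false
set_option linter.unusedVariables false

namespace Pool.Agent.Q67.PI

section ellis

variable {G ι X : Type*} [AddGroup G] [TopologicalSpace X]

/-- The product action. -/
def pact (ρ : G → ι → X → X) (g : G) (z : ι → X) : ι → X := fun j => ρ g j (z j)

/-- Coordinates are actions. -/
def IsPAct (ρ : G → ι → X → X) : Prop := ∀ j, IsAct fun g => ρ g j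

theorem IsPAct.isAct {ρ : G → ι → X → X} (h : IsPAct ρ) : IsAct (pact ρ) where
  zero := fun z => funext fun j => (h j).zero (z j)
  add := fun g k z => funext fun j => (h j).add g k (z j)
  cont := fun g => continuous_pi fun j => ((h j).cont g).comp (continuous_apply j)

theorem idem_exists [T2Space X] {S : Set (ι → X → X)} (hne : S.Nonempty) (hc : IsCompact S)
    (hmul : ∀ f ∈ S, ∀ g ∈ S, (fun j x => f j (g j x)) ∈ S) :
    ∃ u ∈ S, ∀ j x, u j (u j x) = u j x := by
  let _ : Semigroup (ι → X → X) :=
    { mul := fun f g j x => f j (g j x)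
      mul_assoc := fun _ _ _ => rfl }
  obtain ⟨u, hu, hu2⟩ := exists_idempotent_in_compact_subsemigroup (M := ι → X → X)
    (fun r => continuous_pi fun j => continuous_pi fun x =>
      (continuous_apply (r j x)).comp (continuous_apply j)) S hne hc hmul
  exact ⟨u, hu, fun j x => congrFun (congrFun hu2 j) x⟩

theorem EL_comp {ρ : G → ι → X → X} (h : IsPAct ρ) {f g : ι → X → X}
    (hf : f ∈ closure (range ρ)) (hg : g ∈ closure (range ρ)) :
    (fun j x => f j (g j x)) ∈ closure (range ρ) := by
  have h1 : ∀ k : G, (fun j x => ρ k j (g j x)) ∈ closure (range ρ) := by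
    intro k
    refine map_mem_closure (f := fun (g : ι → X → X) => fun j x => ρ k j (g j x))
      (continuous_pi fun j => continuous_pi fun x => ((h j).cont k).comp
        ((continuous_apply x).comp (continuous_apply j))) hg ?_
    rintro _ ⟨m, rfl⟩
    exact ⟨k + m, by funext j x; exact (h j).add k m x⟩
  rw [← closure_closure]
  refine map_mem_closure (f := fun (f : ι → X → X) => fun j x => f j (g j x))
      (continuous_pi fun j => continuous_pi fun x =>
        (continuous_apply (g j x)).comp (continuous_apply j)) hf ?_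
  rintro _ ⟨k, rfl⟩
  exact h1 k

theorem EL_inv {ρ : G → ι → X → X} {A : Set (ι → X)} (hA : IsClosed A)
    (hinv : ∀ g, ∀ z ∈ A, pact ρ g z ∈ A) {f : ι → X → X} (hf : f ∈ closure (range ρ))
    {z : ι → X} (hz : z ∈ A) : (fun j => f j (z j)) ∈ A := by
  rw [← hA.closure_eq]
  refine map_mem_closure (f := fun (f : ι → X → X) => fun j => f j (z j))
      (continuous_pi fun j => (continuous_apply (z j)).comp (continuous_apply j)) hf ?_
  rintro _ ⟨k, rfl⟩
  exact hinv k z hz

theorem EL_eval [CompactSpace X] [T2Space X] {ρ : G → ι → X → X} {z w : ι → X}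
    (hw : w ∈ OC (pact ρ) z) : ∃ f ∈ closure (range ρ), (fun j => f j (z j)) = w := by
  have hc : Continuous fun (f : ι → X → X) => fun j => f j (z j) :=
    continuous_pi fun j => (continuous_apply (z j)).comp (continuous_apply j)
  have h1 : IsClosed ((fun (f : ι → X → X) => fun j => f j (z j)) '' closure (range ρ)) :=
    (isClosed_closure.isCompact.image hc).isClosed
  have h2 : OC (pact ρ) z ⊆ (fun (f : ι → X → X) => fun j => f j (z j)) '' closure (range ρ) := by
    refine closure_minimal ?_ h1
    rintro _ ⟨g, rfl⟩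
    exact ⟨ρ g, subset_closure ⟨g, rfl⟩, rfl⟩
  exact h2 hw

/-- Points of a distal extension above a minimal point are minimal. -/
theorem distal_lift {Y : Type*} [TopologicalSpace Y] [CompactSpace X] [T2Space X]
    [T2Space Y] {ρ : G → ι → X → X} {θ : G → ι → Y → Y} (hρ : IsPAct ρ) (hθ : IsPAct θ)
    {π : X → Y} (hπ : Continuous π) (he : ∀ g j x, π (ρ g j x) = θ g j (π x))
    (hd : ∀ j x x', π x = π x' →
      (∃ w : X, (w, w) ∈ closure (range fun g => (ρ g j x, ρ g j x'))) → x = x')
    {z : ι → X} (hz : MinPt (pact θ) fun j => π (z j)) : MinPt (pact ρ) z := by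
  have hρ' := hρ.isAct
  have hπ' : Continuous fun (z : ι → X) => fun j => π (z j) :=
    continuous_pi fun j => hπ.comp (continuous_apply j)
  have he' : ∀ g (z : ι → X), (fun j => π (pact ρ g z j)) = pact θ g fun j => π (z j) :=
    fun g z => funext fun j => he g j (z j)
  obtain ⟨M, hMz, hM⟩ := exists_minSet hρ' (OC_closed z) ⟨z, mem_OC hρ' z⟩
    (fun g _ hx => OC_inv hρ' hx g)
  -- a point of `M` above `π z`
  have hMi := hM.map hρ' hπ' he'
  have h1 : (fun j => π (z j)) ∈ (fun (z : ι → X) => fun j => π (z j)) '' M := by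
    obtain ⟨m, hm⟩ := hM.ne
    have h2 : (fun j => π (m j)) ∈ OC (pact θ) fun j => π (z j) := OC_map hπ' he' (hMz hm)
    have h3 := hz _ h2
    rwa [hMi.eq hθ.isAct ⟨m, hm, rfl⟩] at h3
  obtain ⟨z₁, hz₁, hz₁e⟩ := h1
  obtain ⟨f₁, hf₁, hf₁z⟩ := EL_eval (hMz hz₁)
  -- the semigroup
  let S : Set (ι → X → X) := {f | f ∈ closure (range ρ) ∧ (fun j => f j (z j)) ∈ M ∧
    ∀ j, π (f j (z j)) = π (z j)}
  have hSc : IsClosed S := by
    have h3 : IsClosed {f : ι → X → X | ∀ j, π (f j (z j)) = π (z j)} := by
      simp only [ofPred_forall]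
      exact isClosed_iInter fun j => isClosed_eq
        (hπ.comp ((continuous_apply (z j)).comp (continuous_apply j))) continuous_const
    refine isClosed_closure.inter (IsClosed.inter ?_ h3)
    exact hM.closed.preimage (continuous_pi fun j =>
        (continuous_apply (z j)).comp (continuous_apply j))
  obtain ⟨u, hu, huu⟩ := idem_exists (S := S) ⟨f₁, hf₁, by rw [hf₁z]; exact hz₁, fun j => by
      rw [show f₁ j (z j) = z₁ j from congrFun hf₁z j]; exact congrFun hz₁e j⟩ hSc.isCompact (by
    rintro f ⟨hf1, hf2, hf3⟩ g ⟨hg1, hg2, hg3⟩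
    refine ⟨EL_comp hρ hf1 hg1, EL_inv hM.closed hM.inv hf1 hg2, fun j => ?_⟩
    have key : ∀ x x' : X, π x = π x' → π (f j x) = π (f j x') := by
      intro x x' hxx
      have : f ∈ {f : ι → X → X | π (f j x) = π (f j x')} := by
        refine closure_minimal ?_ (isClosed_eq
          (hπ.comp ((continuous_apply x).comp (continuous_apply j)))
          (hπ.comp ((continuous_apply x').comp (continuous_apply j)))) hf1
        rintro _ ⟨g, rfl⟩
        show π (ρ g j x) = π (ρ g j x')
        rw [he, he, hxx]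
      exact this
    show π (f j (g j (z j))) = π (z j)
    rw [key _ _ (hg3 j), hf3 j])
  have hzu : z = fun j => u j (z j) := by
    funext j
    refine hd j _ _ (hu.2.2 j).symm ⟨u j (z j), ?_⟩
    have h4 : (u j (z j), u j (u j (z j))) ∈ closure (range fun g => (ρ g j (z j), ρ g j (u j (z j)))) := by
      refine map_mem_closure (f := fun (f : ι → X → X) => (f j (z j), f j (u j (z j))))
        (((continuous_apply (z j)).comp (continuous_apply j)).prodMk
          ((continuous_apply (u j (z j))).comp (continuous_apply j))) hu.1 ?_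
      rintro _ ⟨k, rfl⟩
      exact ⟨k, rfl⟩
    rwa [huu] at h4
  rw [hzu]
  exact hM.minPt hρ' hu.2.1

end ellis

/-! ### Powers of a homeomorphism -/

section powers

variable {X Y : Type*} [TopologicalSpace X] [TopologicalSpace Y]

/-- `T^n x`. -/
def it (T : X ≃ₜ X) (n : ℤ) (x : X) : X := (T ^ n) x

theorem it_act (T : X ≃ₜ X) : IsAct (it T) where
  zero := fun z => by simp [it]
  add := fun g h z => by simp [it, zpow_add]
  cont := fun g => (T ^ g).continuous

theorem it_map {T : X ≃ₜ X} {S : Y ≃ₜ Y} {π : X → Y} (h : ∀ x, π (T x) = S (π x)) (n : ℤ)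
    (x : X) : π (it T n x) = it S n (π x) := by
  have h' : ∀ x, π (T⁻¹ x) = S⁻¹ (π x) := by
    intro x
    have := h (T⁻¹ x)
    rw [show T (T⁻¹ x) = x from T.apply_symm_apply x] at this
    rw [this]
    exact (S.symm_apply_apply _).symm
  induction n using Int.induction_on generalizing x with
  | zero => simp [it]
  | succ n ih =>
    have e1 : it T (n + 1) x = it T n (T x) := by simp [it, zpow_add]
    have e2 : it S (n + 1) (π x) = it S n (S (π x)) := by simp [it, zpow_add]
    rw [e1, e2, ih, h]
  | pred n ih =>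
    have e1 : it T (-n - 1) x = it T (-n) (T⁻¹ x) := by simp [it, zpow_sub]
    have e2 : it S (-n - 1) (π x) = it S (-n) (S⁻¹ (π x)) := by simp [it, zpow_sub]
    rw [e1, e2, ih, h']

/-- `T^(a j * n)` on the coordinate `j`. -/
def pr (T : X ≃ₜ X) (a : ℕ → ℤ) (n : ℤ) (j : ℕ) (x : X) : X := it T (a j * n) x

/-- `T^(m + a j * n)` on the coordinate `j`. -/
def pr2 (T : X ≃ₜ X) (a : ℕ → ℤ) (p : ℤ × ℤ) (j : ℕ) (x : X) : X := it T (p.1 + a j * p.2) x

theorem pr_act (T : X ≃ₜ X) (a : ℕ → ℤ) : IsPAct (pr T a) := fun j =>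
  { zero := fun z => by simp [pr, (it_act T).zero]
    add := fun g h z => by rw [pr, mul_add, (it_act T).add]; rfl
    cont := fun g => (it_act T).cont _ }

theorem pr2_act (T : X ≃ₜ X) (a : ℕ → ℤ) : IsPAct (pr2 T a) := fun j =>
  { zero := fun z => by simp [pr2, (it_act T).zero]
    add := fun g h z => by
      rw [pr2, pr2, pr2, ← (it_act T).add, Prod.fst_add, Prod.snd_add]
      congr 1
      ring
    cont := fun g => (it_act T).cont _ }

/-- The diagonal point. -/
def dg (x : X) : ℕ → X := fun _ => x

theorem continuous_dg : Continuous (dg : X → ℕ → X) := continuous_pi fun _ => continuous_id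

/-- The orbit closure of a diagonal point of a minimal system under the group generated by
`T × T × ⋯` and `T^(a 0) × T^(a 1) × ⋯` is minimal (Glasner). -/
theorem glasner [CompactSpace X] [T2Space X] {T : X ≃ₜ X} (hmin : ∀ x, OC (it T) x = univ)
    (a : ℕ → ℤ) (x : X) : MinSet (pact (pr2 T a)) (OC (pact (pr2 T a)) (dg x)) := by
  have hT := it_act T
  have hP := (pr2_act T a).isAct
  -- the action on maps
  let lam : ℤ → (X → X) → (X → X) := fun n f y => it T n (f y)
  have hlam : IsAct lam :=
    { zero := fun f => funext fun y => hT.zero _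
      add := fun g h f => funext fun y => hT.add g h _
      cont := fun g => continuous_pi fun y => (hT.cont g).comp (continuous_apply y) }
  obtain ⟨I, hIE, hI⟩ := exists_minSet hlam (OC_closed (ρ := lam) id) ⟨id, mem_OC hlam id⟩
    (fun g _ hx => OC_inv hlam hx g)
  have hEI : ∀ f ∈ OC lam id, ∀ g ∈ I, (fun y => f (g y)) ∈ I := by
    intro f hf g hg
    rw [← hI.closed.closure_eq]
    refine map_mem_closure (f := fun (f : X → X) => fun y => f (g y))
      (continuous_pi fun y => continuous_apply (g y)) hf ?_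
    rintro _ ⟨k, rfl⟩
    exact hI.inv k g hg
  -- the idempotent `u`
  obtain ⟨u, huI, huu, hux⟩ : ∃ u ∈ I, (∀ y, u (u y) = u y) ∧ u x = x := by
    have h1 : x ∈ (fun f : X → X => f x) '' I := by
      have h2 := hI.map hlam (f := fun f : X → X => f x) (continuous_apply x)
        (θ := it T) (fun g f => rfl)
      obtain ⟨y, hy⟩ := h2.ne
      rw [← h2.eq hT hy, hmin y]
      trivial
    obtain ⟨f₀, hf₀, hf₀x⟩ := h1
    let S : Set (Unit → X → X) := {f | f () ∈ I ∧ f () x = x}
    have hSc : IsClosed S := (hI.closed.preimage (continuous_apply ())).inter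
      (isClosed_eq ((continuous_apply x).comp (continuous_apply ())) continuous_const)
    obtain ⟨v, hv, hvv⟩ := idem_exists (S := S) ⟨fun _ => f₀, hf₀, hf₀x⟩ hSc.isCompact (by
      rintro f ⟨hf1, hf2⟩ g ⟨hg1, hg2⟩
      refine ⟨hEI _ (hIE hf1) _ hg1, ?_⟩
      show f () (g () x) = x
      rw [hg2, hf2])
    exact ⟨v (), hv.1, fun y => hvv () y, hv.2⟩
  -- a minimal set
  obtain ⟨M, hMN, hM⟩ := exists_minSet hP (OC_closed (ρ := pact (pr2 T a)) (dg x))
    ⟨dg x, mem_OC hP _⟩ (fun g _ hx => OC_inv hP hx g)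
  have hDu : (fun _ => u) ∈ closure (range (pr2 T a)) := by
    refine map_mem_closure (f := fun (f : X → X) => (fun _ : ℕ => f))
      (continuous_pi fun j => continuous_id) (hIE huI) ?_
    rintro _ ⟨k, rfl⟩
    refine ⟨(k, 0), ?_⟩
    funext j y
    simp [pr2, lam]
  have hcoord : ∀ s ∈ closure (range (pr2 T a)), ∀ j, s j ∈ OC lam id := by
    intro s hs j
    refine map_mem_closure (f := fun (f : ℕ → X → X) => f j) (continuous_apply j) hs ?_
    rintro _ ⟨k, rfl⟩
    exact ⟨k.1 + a j * k.2, rfl⟩
  let S : Set (ℕ → X → X) := {s | s ∈ closure (range (pr2 T a)) ∧ (fun j => s j x) ∈ M}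
  have hSc : IsClosed S := isClosed_closure.inter (hM.closed.preimage
    (continuous_pi fun j => (continuous_apply x).comp (continuous_apply j)))
  obtain ⟨m, hm⟩ := hM.ne
  obtain ⟨s₀, hs₀, hs₀e⟩ := EL_eval (hMN hm)
  let R : (ℕ → X → X) → (ℕ → X → X) := fun s j y => s j (u y)
  have hR : Continuous R := continuous_pi fun j => continuous_pi fun y =>
    (continuous_apply (u y)).comp (continuous_apply j)
  obtain ⟨v, ⟨s, hs, hsv⟩, hvv⟩ := idem_exists (S := R '' S)
    ⟨R s₀, s₀, ⟨hs₀, by rw [show (fun j => s₀ j x) = m from hs₀e]; exact hm⟩, rfl⟩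
    (hSc.isCompact.image hR) (by
      rintro _ ⟨s, hs, rfl⟩ _ ⟨t, ht, rfl⟩
      refine ⟨fun j y => s j (u (t j y)), ⟨?_, ?_⟩, rfl⟩
      · exact EL_comp (pr2_act T a) hs.1 (EL_comp (pr2_act T a) hDu ht.1)
      · exact EL_inv hM.closed hM.inv hs.1 (EL_inv hM.closed hM.inv hDu ht.2))
  have hvj : ∀ j y, v j y = s j (u y) := fun j y => by rw [← hsv]
  have hvI : ∀ j, v j ∈ I := fun j => by
    have := hEI _ (hcoord s hs.1 j) u huI
    rwa [show (fun y => s j (u y)) = v j from funext fun y => (hvj j y).symm] at this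
  have hwI : ∀ j, (fun y => u (v j y)) ∈ I := fun j => hEI _ (hIE huI) _ (hvI j)
  have hvu : ∀ j y, v j (u y) = v j y := fun j y => by rw [hvj, hvj, huu]
  have hww : ∀ j y, u (v j (u (v j y))) = u (v j y) := fun j y => by
    rw [hvu, hvv]
  have huw : ∀ j y, u (u (v j y)) = u y := by
    intro j y
    have h3 : u ∈ {f : X → X | ∀ y, f (u (v j y)) = f y} := by
      refine closure_minimal ?_ ?_ (hI.dense _ (hwI j) huI)
      · rintro _ ⟨k, rfl⟩ y
        show it T k (u (v j (u (v j y)))) = it T k (u (v j y))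
        rw [hww]
      · simp only [ofPred_forall]
        exact isClosed_iInter fun y => isClosed_eq (continuous_apply _) (continuous_apply _)
    exact h3 y
  have hfin : dg x ∈ M := by
    have h5 : (fun j => v j x) ∈ M := by
      have : (fun j => v j x) = fun j => s j x := by
        funext j
        rw [hvj, hux]
      rw [this]
      exact hs.2
    have h6 := EL_inv hM.closed hM.inv hDu h5
    have h7 : (fun j => u (v j x)) = dg x := by
      funext j
      have := huw j x
      rw [huu, hux] at this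
      exact this
    rwa [h7] at h6
  rw [(hM.eq hP hfin)]
  exact hM

end powers

end Pool.Agent.Q67.PI
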