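import Pool.Agent.Q67.PI.Ellis

/-!
Proximal extensions: uniqueness of minimal sets for powers.
-/

open Set Filter Topology

set_option autoImplicit false
set_option linter.unusedSectionVars false
set_option linter.unusedVariables false

namespace Pool.Agent.Q67.PI

variable {X Y : Type*} [MetricSpace X] [CompactSpace X] [MetricSpace Y] [CompactSpace Y]

/-- The map `π` is a proximal extension. -/
def ProxExt (T : X ≃ₜ X) (π : X → Y) : Prop :=
  ∀ x x', π x = π x' → ∀ ε > 0, ∃ n : ℤ, dist (it T n x) (it T n x') < ε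

/-- The map `π` is an equicontinuous extension. -/
def EqExt (T : X ≃ₜ X) (π : X → Y) : Prop :=
  ∀ ε > 0, ∃ δ > 0, ∀ x x', π x = π x' → dist x x' < δ → ∀ n : ℤ, dist (it T n x) (it T n x') < ε

theorem prox_unif {T : X ≃ₜ X} {π : X → Y} (hπ : Continuous π) (hp : ProxExt T π) {ε : ℝ}
    (hε : 0 < ε) : ∃ K : ℕ, ∀ x x', π x = π x' →
      ∃ n : ℤ, |n| ≤ K ∧ dist (it T n x) (it T n x') < ε := by
  have hR : IsCompact {p : X × X | π p.1 = π p.2} :=
    (isClosed_eq (hπ.comp continuous_fst) (hπ.comp continuous_snd)).isCompact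
  have hT := it_act T
  obtain ⟨F, hF⟩ := hR.elim_finite_subcover
    (fun n : ℤ => {p : X × X | dist (it T n p.1) (it T n p.2) < ε})
    (fun n => isOpen_lt (((hT.cont n).comp continuous_fst).dist
      ((hT.cont n).comp continuous_snd)) continuous_const) (by
    rintro ⟨x, x'⟩ hx
    obtain ⟨n, hn⟩ := hp x x' hx ε hε
    exact mem_iUnion.2 ⟨n, hn⟩)
  refine ⟨F.sup Int.natAbs, fun x x' hx => ?_⟩
  have := hF (show (x, x') ∈ {p : X × X | π p.1 = π p.2} from hx)
  simp only [mem_iUnion, exists_prop] at this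
  obtain ⟨n, hn, hd⟩ := this
  refine ⟨n, ?_, hd⟩
  have := Finset.le_sup (f := Int.natAbs) hn
  rw [Int.abs_eq_natAbs]
  exact_mod_cast this

theorem pow_unif (T : X ≃ₜ X) (B : ℕ) {ε : ℝ} (hε : 0 < ε) : ∃ δ > 0, ∀ x x' : X,
    dist x x' < δ → ∀ k : ℤ, |k| ≤ B → dist (it T k x) (it T k x') < ε := by
  have h1 : ∀ k : ℤ, ∃ δ > 0, ∀ x x' : X, dist x x' < δ → dist (it T k x) (it T k x') < ε := by
    intro k
    have := CompactSpace.uniformContinuous_of_continuous ((it_act T).cont k)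
    obtain ⟨δ, hδ, h⟩ := Metric.uniformContinuous_iff.1 this ε hε
    exact ⟨δ, hδ, fun x x' h' => h h'⟩
  choose d hd h using h1
  have hne : (Finset.Icc (-(B : ℤ)) B).Nonempty := ⟨0, by simp⟩
  refine ⟨(Finset.Icc (-(B : ℤ)) B).inf' hne d, (Finset.lt_inf'_iff hne).2 fun k _ => hd k, ?_⟩
  intro x x' hx k hk
  refine h k x x' (hx.trans_le (Finset.inf'_le d ?_))
  rw [Finset.mem_Icc]
  exact abs_le.1 hk

/-- Windows of closeness along the multiples of `c`. -/
theorem prox_window {T : X ≃ₜ X} {π : X → Y} (hπ : Continuous π) (hp : ProxExt T π) {c : ℤ}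
    (hc : c ≠ 0) (L : ℕ) {ε : ℝ} (hε : 0 < ε) : ∃ K : ℕ, ∀ x x', π x = π x' →
      ∃ m : ℤ, |m| ≤ K ∧ ∀ i : ℕ, i < L →
        dist (it T (c * (m + i)) x) (it T (c * (m + i)) x') < ε := by
  obtain ⟨δ, hδ, h⟩ := pow_unif T (c.natAbs * (L + 1)) hε
  obtain ⟨K, hK⟩ := prox_unif hπ hp hδ
  refine ⟨K, fun x x' hx => ?_⟩
  obtain ⟨n, hn, hd⟩ := hK x x' hx
  refine ⟨n / c, ?_, fun i hi => ?_⟩
  · have := Int.natAbs_ediv_le_natAbs n c
    rw [Int.abs_eq_natAbs] at hn ⊢
    omega
  · have h2 := h _ _ hd (c * (n / c + i) - n) ?_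
    · rw [← (it_act T).add, ← (it_act T).add] at h2
      simpa using h2
    · have h3 : c * (n / c) = n - n % c := by
        have := Int.emod_add_mul_ediv n c
        linarith
      have h4 : c * (n / c + i) - n = c * i - n % c := by rw [mul_add, h3]; ring
      rw [h4]
      have h5 : 0 ≤ n % c := Int.emod_nonneg n hc
      have h6 : n % c < |c| := Int.emod_lt_abs n hc
      have h7 : |c * (i : ℤ)| ≤ |c| * L := by
        rw [abs_mul]
        refine mul_le_mul_of_nonneg_left ?_ (abs_nonneg c)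
        rw [Nat.abs_cast]
        exact_mod_cast hi.le
      push_cast
      calc |c * (i : ℤ) - n % c| ≤ |c * (i : ℤ)| + |n % c| := abs_sub _ _
        _ ≤ |c| * L + |c| := by
          rw [abs_of_nonneg h5]
          exact add_le_add h7 h6.le
        _ = |c| * (L + 1) := by ring

/-- Simultaneous windows for the first coordinates. -/
theorem prox_multi {T : X ≃ₜ X} {S : Y ≃ₜ Y} {π : X → Y} (hπ : Continuous π)
    (he : ∀ x, π (T x) = S (π x)) (hp : ProxExt T π) {a : ℕ → ℤ} (ha : ∀ j, a j ≠ 0) {ε : ℝ}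
    (hε : 0 < ε) (J : ℕ) : ∀ L : ℕ, ∃ K : ℕ, ∀ z z' : ℕ → X, (∀ j, π (z j) = π (z' j)) →
      ∃ m : ℤ, |m| ≤ K ∧ ∀ i : ℕ, i < L → ∀ j < J,
        dist (it T (a j * (m + i)) (z j)) (it T (a j * (m + i)) (z' j)) < ε := by
  induction J with
  | zero => exact fun L => ⟨0, fun z z' _ => ⟨0, by simp, fun i _ j hj => absurd hj (by omega)⟩⟩
  | succ J ih =>
    intro L
    obtain ⟨K₁, hK₁⟩ := prox_window hπ hp (ha J) L hε
    obtain ⟨K, hK⟩ := ih (2 * K₁ + L)
    refine ⟨K + 2 * K₁, fun z z' hz => ?_⟩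
    obtain ⟨m, hm, hd⟩ := hK z z' hz
    obtain ⟨m', hm', hd'⟩ := hK₁ (it T (a J * (m + K₁)) (z J)) (it T (a J * (m + K₁)) (z' J))
      (by rw [it_map he, it_map he, hz J])
    have h8 := abs_le.1 hm'
    have h9 := abs_le.1 hm
    refine ⟨m + K₁ + m', ?_, fun i hi j hj => ?_⟩
    · push_cast
      rw [abs_le]
      constructor <;> omega
    · rcases Nat.lt_succ_iff_lt_or_eq.1 hj with hj | rfl
      · have h10 := hd (K₁ + m' + i).toNat (by omega) j hj
        have h11 : ((K₁ + m' + i : ℤ).toNat : ℤ) = K₁ + m' + i := Int.toNat_of_nonneg (by omega)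
        rw [h11] at h10
        rwa [show m + (K₁ + m' + (i : ℤ)) = m + K₁ + m' + i by ring] at h10
      · have h10 := hd' i hi
        rw [← (it_act T).add, ← (it_act T).add] at h10
        rwa [show a j * (m' + (i : ℤ)) + a j * (m + K₁) = a j * (m + K₁ + m' + i) by ring] at h10

/-- Two minimal sets of `∏ T^(a j)` with the same image under a proximal extension coincide. -/
theorem prox_unique {T : X ≃ₜ X} {S : Y ≃ₜ Y} {π : X → Y} (hπ : Continuous π)
    (he : ∀ x, π (T x) = S (π x)) (hp : ProxExt T π) {a : ℕ → ℤ} (ha : ∀ j, a j ≠ 0)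
    {M M' : Set (ℕ → X)} (hM : MinSet (pact (pr T a)) M) (hM' : MinSet (pact (pr T a)) M')
    (h : (fun (z : ℕ → X) => fun j => π (z j)) '' M = (fun (z : ℕ → X) => fun j => π (z j)) '' M') :
    M = M' := by
  obtain ⟨z, hz⟩ := hM.ne
  have h1 : (fun j => π (z j)) ∈ (fun (z : ℕ → X) => fun j => π (z j)) '' M' := by
    rw [← h]; exact ⟨z, hz, rfl⟩
  obtain ⟨z', hz', hzz⟩ := h1
  have hzz' : ∀ j, π (z j) = π (z' j) := fun j => (congrFun hzz j).symm
  let C : ℕ → Set ((ℕ → X) × (ℕ → X)) := fun k =>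
    (M ×ˢ M') ∩ {p | ∀ j, j < k → dist (p.1 j) (p.2 j) ≤ 1 / (k + 1)}
  have hC0 : ∀ k, IsClosed {p : (ℕ → X) × (ℕ → X) | ∀ j, j < k →
      dist (p.1 j) (p.2 j) ≤ (1 / (k + 1) : ℝ)} := by
    intro k
    simp only [ofPred_forall]
    refine isClosed_iInter fun j => isClosed_iInter fun _ => isClosed_le ?_ continuous_const
    exact (((continuous_apply j).comp continuous_fst).dist
      ((continuous_apply j).comp continuous_snd))
  have hCc : ∀ k, IsClosed (C k) := fun k => (hM.closed.prod hM'.closed).inter (hC0 k)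
  obtain ⟨⟨w, w'⟩, hw⟩ := IsCompact.nonempty_iInter_of_sequence_nonempty_isCompact_isClosed C
    (by
      rintro k p ⟨hp1, hp2⟩
      refine ⟨hp1, fun j hj => (hp2 j (by omega)).trans ?_⟩
      push_cast
      exact one_div_le_one_div_of_le (by positivity) (by linarith))
    (by
      intro k
      obtain ⟨K, hK⟩ := prox_multi hπ he hp ha (show (0 : ℝ) < 1 / (k + 1) by positivity) k 1
      obtain ⟨m, _, hd⟩ := hK z z' hzz'
      refine ⟨(pact (pr T a) m z, pact (pr T a) m z'), ⟨hM.inv m z hz, hM'.inv m z' hz'⟩, ?_⟩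
      intro j hj
      have := hd 0 (by norm_num) j hj
      simp only [Nat.cast_zero, add_zero] at this
      exact this.le)
    (hCc 0).isCompact hCc
  simp only [mem_iInter] at hw
  have hww : w = w' := by
    funext j
    refine eq_of_dist_eq_zero (le_antisymm (le_of_forall_pos_lt_add fun ε hε => ?_) dist_nonneg)
    obtain ⟨k, hk⟩ := exists_nat_gt (max (j : ℝ) (1 / ε))
    have h1 := (hw k).2 j (by exact_mod_cast (le_max_left _ _).trans_lt hk)
    have h2 : 1 / ε < k := (le_max_right _ _).trans_lt hk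
    have h3 : (1 : ℝ) / (k + 1) < ε := by
      rw [div_lt_iff₀ hε] at h2
      rw [div_lt_iff₀ (by positivity)]
      nlinarith
    simp only at h1
    linarith
  exact hM.disj (pr_act T a).isAct hM' (hw 0).1.1 (by rw [hww]; exact (hw 0).1.2)

/-! ### Semicontinuity -/

/-- A relation with closed fibres and with open sets of points whose fibre meets a given open set
is closed over a residual set of points. -/
theorem fort {Y K : Type*} [TopologicalSpace Y] [TopologicalSpace K] [SecondCountableTopology K]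
    (G : Set Y) (R : Set (Y × K)) (hRG : ∀ p ∈ R, p.1 ∈ G)
    (hcl : ∀ y ∈ G, IsClosed {z | (y, z) ∈ R})
    (hop : ∀ V : Set K, IsOpen V → ∃ W : Set Y, IsOpen W ∧
      ∀ y ∈ G, (y ∈ W ↔ ∃ z ∈ V, (y, z) ∈ R)) :
    {y | y ∈ G → ∀ z, (y, z) ∈ closure R → (y, z) ∈ R} ∈ residual Y := by
  choose! W hW1 hW2 using hop
  set B := TopologicalSpace.countableBasis K with hB
  have hBc : B.Countable := TopologicalSpace.countable_countableBasis K
  have hBb : TopologicalSpace.IsTopologicalBasis B :=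
    TopologicalSpace.isBasis_countableBasis K
  have e1 : (⋂ V ∈ B, (frontier (W V))ᶜ) ∈ residual Y :=
    (countable_bInter_mem hBc).2 fun V hV =>
      compl_frontier_residual_open (hW1 V (hBb.isOpen hV))
  filter_upwards [e1] with y hy hyG z hz
  simp only [mem_iInter] at hy
  by_contra hcon
  obtain ⟨V, hVB, hzV, hVR⟩ := hBb.exists_subset_of_mem_open
    (show z ∈ {z | (y, z) ∈ R}ᶜ from hcon) (hcl y hyG).isOpen_compl
  have hVo := hBb.isOpen hVB
  have hyW : y ∉ W V := by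
    intro h
    obtain ⟨z', hz', hz'R⟩ := (hW2 V hVo y hyG).1 h
    exact hVR hz' hz'R
  refine hy V hVB ?_
  rw [(hW1 V hVo).frontier_eq]
  refine ⟨?_, hyW⟩
  rw [mem_closure_iff]
  intro O hO hyO
  obtain ⟨⟨y', z'⟩, ⟨hy', hz'⟩, hR'⟩ := mem_closure_iff.1 hz (O ×ˢ V) (hO.prod hVo) ⟨hyO, hzV⟩
  exact ⟨y', hy', (hW2 V hVo y' (hRG _ hR')).2 ⟨z', hz', hR'⟩⟩

end Pool.Agent.Q67.PI
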