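import Pool.Agent.Q67.PI.Prox

/-!
The steps of the induction along the tower.
-/

open Set Filter Topology

set_option autoImplicit false
set_option linter.unusedSectionVars false
set_option linter.unusedVariables false

namespace Pool.Agent.Q67.PI

/-- The set of the points whose diagonal point is minimal for `T^(a 0) × T^(a 1) × ⋯`. -/
def DM {X : Type*} [TopologicalSpace X] (T : X ≃ₜ X) (a : ℕ → ℤ) : Set X :=
  {x | MinPt (pact (pr T a)) (dg x)}

theorem subtype_minimal {G Z : Type*} [AddGroup G] [TopologicalSpace Z] {ρ : G → Z → Z}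
    {M : Set Z} (hM : MinSet ρ M) (z : M) :
    OC (fun g (w : M) => (⟨ρ g w, hM.inv g w w.2⟩ : M)) z = univ := by
  rw [eq_univ_iff_forall]
  intro b
  rw [OC, closure_subtype]
  have := hM.dense z z.2 b.2
  rw [OC] at this
  convert this using 2
  ext w
  constructor
  · rintro ⟨_, ⟨g, rfl⟩, rfl⟩
    exact ⟨g, rfl⟩
  · rintro ⟨g, rfl⟩
    exact ⟨_, ⟨g, rfl⟩, rfl⟩

theorem eq_univ_of_minSet {G Z : Type*} [AddGroup G] [TopologicalSpace Z] {ρ : G → Z → Z}
    (h : IsAct ρ) (hmin : ∀ z, OC ρ z = univ) {M : Set Z} (hM : MinSet ρ M) : M = univ := by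
  obtain ⟨z, hz⟩ := hM.ne
  rw [← hM.eq h hz, hmin]

theorem dg_map {X : Type*} [TopologicalSpace X] (T : X ≃ₜ X) (a : ℕ → ℤ) (n : ℤ) (x : X) :
    dg (it T n x) = pact (pr2 T a) (n, 0) (dg x) := by
  funext j
  simp [dg, pact, pr2]

theorem pr_eq_pr2 {X : Type*} [TopologicalSpace X] (T : X ≃ₜ X) (a : ℕ → ℤ) (n : ℤ)
    (z : ℕ → X) : pact (pr T a) n z = pact (pr2 T a) (0, n) z := by
  funext j
  simp [pact, pr2, pr]

theorem pr2_comm {X : Type*} [TopologicalSpace X] (T : X ≃ₜ X) (a : ℕ → ℤ) (p q : ℤ × ℤ)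
    (z : ℕ → X) : pact (pr2 T a) p (pact (pr2 T a) q z) = pact (pr2 T a) q (pact (pr2 T a) p z) := by
  rw [← (pr2_act T a).isAct.add, ← (pr2_act T a).isAct.add, add_comm]

variable {X Y : Type*} [MetricSpace X] [CompactSpace X] [MetricSpace Y] [CompactSpace Y]

/-- Factors. -/
theorem factor_step {T : X ≃ₜ X} {S : Y ≃ₜ Y} {π : X → Y} (hmin : ∀ x, OC (it T) x = univ)
    (hπ : Continuous π) (hsur : Function.Surjective π) (he : ∀ x, π (T x) = S (π x)) {a : ℕ → ℤ}
    (hX : DM T a ∈ residual X) : DM S a ∈ residual Y := by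
  have hs : SemiOpen π := semiOpen_of_minimal (it_act T) (it_act S) hmin hπ hsur (it_map he)
  refine mem_of_superset (residual_image hπ hsur hs hX) ?_
  rintro _ ⟨x, hx, rfl⟩
  exact MinPt.map (f := fun (z : ℕ → X) => fun j => π (z j))
    (continuous_pi fun j => hπ.comp (continuous_apply j))
    (fun n z => funext fun j => it_map he _ _) hx

/-- Equicontinuous extensions. -/
theorem eq_step {T : X ≃ₜ X} {S : Y ≃ₜ Y} {π : X → Y} (hmin : ∀ x, OC (it T) x = univ)
    (hπ : Continuous π) (hsur : Function.Surjective π) (he : ∀ x, π (T x) = S (π x))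
    (hq : EqExt T π) {a : ℕ → ℤ} (hY : DM S a ∈ residual Y) : DM T a ∈ residual X := by
  have hs : SemiOpen π := semiOpen_of_minimal (it_act T) (it_act S) hmin hπ hsur (it_map he)
  filter_upwards [residual_preimage hπ hs hY] with x hx
  refine distal_lift (pr_act T a) (pr_act S a) hπ (fun g j x => it_map he _ _) ?_
    (z := dg x) hx
  rintro j x x' hxx ⟨w, hw⟩
  refine eq_of_dist_eq_zero (le_antisymm (le_of_forall_pos_lt_add fun ε hε => ?_) dist_nonneg)
  obtain ⟨δ, hδ, h⟩ := hq ε hε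
  obtain ⟨_, ⟨h1, h2⟩, ⟨n, rfl⟩⟩ := mem_closure_iff.1 hw (Metric.ball w (δ / 2) ×ˢ Metric.ball w (δ / 2))
    (Metric.isOpen_ball.prod Metric.isOpen_ball)
    ⟨Metric.mem_ball_self (by positivity), Metric.mem_ball_self (by positivity)⟩
  have h3 : dist (pr T a n j x) (pr T a n j x') < δ := by
    have h1' := Metric.mem_ball.1 h1
    have h2' := Metric.mem_ball.1 h2
    calc _ ≤ dist (pr T a n j x) w + dist (pr T a n j x') w := dist_triangle_right _ _ _
      _ < δ / 2 + δ / 2 := add_lt_add h1' h2'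
      _ = δ := by ring
  have h4 := h _ _ (by rw [pr, pr, it_map he, it_map he, hxx]) h3 (-(a j * n))
  rw [pr, pr, (it_act T).neg_cancel, (it_act T).neg_cancel] at h4
  linarith

/-- Inverse limits. -/
theorem limit_step {ι : Type*} [LinearOrder ι] {Y : ι → Type*} [∀ i, MetricSpace (Y i)]
    [∀ i, CompactSpace (Y i)] {T : X ≃ₜ X} {S : ∀ i, Y i ≃ₜ Y i} {π : ∀ i, X → Y i}
    (hmin : ∀ x, OC (it T) x = univ) (hπ : ∀ i, Continuous (π i))
    (hsur : ∀ i, Function.Surjective (π i)) (he : ∀ i x, π i (T x) = S i (π i x))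
    (hord : ∀ i k, i ≤ k → ∀ x x', π k x = π k x' → π i x = π i x')
    (hsep : ∀ x x', (∀ i, π i x = π i x') → x = x') {a : ℕ → ℤ}
    (hY : ∀ i, DM (S i) a ∈ residual (Y i)) : DM T a ∈ residual X := by
  have hs : ∀ i, SemiOpen (π i) := fun i =>
    semiOpen_of_minimal (it_act T) (it_act (S i)) hmin (hπ i) (hsur i) (it_map (he i))
  obtain ⟨Q, hQc, hQ⟩ := TopologicalSpace.isOpen_iUnion_countable
    (fun i => {p : X × X | π i p.1 ≠ π i p.2})
    (fun i => (isClosed_eq ((hπ i).comp continuous_fst) ((hπ i).comp continuous_snd)).isOpen_compl)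
  have e1 : (⋂ i ∈ Q, π i ⁻¹' DM (S i) a) ∈ residual X :=
    (countable_bInter_mem hQc).2 fun i _ => residual_preimage (hπ i) (hs i) (hY i)
  filter_upwards [e1] with x hx
  simp only [mem_iInter] at hx
  have hρ := (pr_act T a).isAct
  obtain ⟨M, hMz, hM⟩ := exists_minSet hρ (OC_closed (ρ := pact (pr T a)) (dg x))
    ⟨dg x, mem_OC hρ _⟩ (fun g _ hx => OC_inv hρ hx g)
  suffices h : dg x ∈ M from hM.minPt hρ h
  have hsep' : ∀ m : ℕ → X, (∀ i ∈ Q, ∀ j, π i (m j) = π i x) → m = dg x := by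
    intro m hm
    funext j
    refine hsep _ _ fun i => ?_
    by_contra hcon
    have h1 : (m j, x) ∈ ⋃ i, {p : X × X | π i p.1 ≠ π i p.2} := mem_iUnion.2 ⟨i, hcon⟩
    rw [← hQ] at h1
    simp only [mem_iUnion, exists_prop] at h1
    obtain ⟨i', hi', h2⟩ := h1
    exact h2 (hm i' hi' j)
  rcases Q.eq_empty_or_nonempty with hQe | hQne
  · obtain ⟨m, hm⟩ := hM.ne
    rwa [← hsep' m (fun i hi => by rw [hQe] at hi; exact absurd hi (by simp))]
  have : Nonempty Q := hQne.to_subtype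
  let C : Q → Set (ℕ → X) := fun i => M ∩ {m | ∀ j, π i (m j) = π i x}
  have hC0 : ∀ i : ι, IsClosed {m : ℕ → X | ∀ j, π i (m j) = π i x} := by
    intro i
    simp only [ofPred_forall]
    exact isClosed_iInter fun j => isClosed_eq ((hπ i).comp (continuous_apply j)) continuous_const
  have hCc : ∀ i, IsClosed (C i) := fun i => hM.closed.inter (hC0 i)
  obtain ⟨m, hm⟩ := IsCompact.nonempty_iInter_of_directed_nonempty_isCompact_isClosed C (by
      intro i k
      rcases le_total (i : ι) k with h | h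
      · exact ⟨k, fun m hm => ⟨hm.1, fun j => hord i k h _ _ (hm.2 j)⟩, Subset.rfl⟩
      · exact ⟨i, Subset.rfl, fun m hm => ⟨hm.1, fun j => hord k i h _ _ (hm.2 j)⟩⟩)
    (by
      intro i
      have hc : Continuous fun (z : ℕ → X) => fun j => π i (z j) :=
        continuous_pi fun j => (hπ i).comp (continuous_apply j)
      have hcm : ∀ g (z : ℕ → X), (fun j => π i (pact (pr T a) g z j)) =
          pact (pr (S i) a) g fun j => π i (z j) := fun g z => funext fun j => it_map (he i) _ _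
      have hMi := hM.map hρ hc hcm
      obtain ⟨m, hm⟩ := hM.ne
      have h2 := OC_map hc hcm (hMz hm)
      have h3 := hx i i.2 _ h2
      rw [hMi.eq (pr_act (S i) a).isAct ⟨m, hm, rfl⟩] at h3
      obtain ⟨m', hm', hm'e⟩ := h3
      exact ⟨m', hm', fun j => congrFun hm'e j⟩)
    (fun i => (hCc i).isCompact) hCc
  simp only [mem_iInter] at hm
  obtain ⟨i₀⟩ := this
  rw [← hsep' m fun i hi j => (hm ⟨i, hi⟩).2 j]
  exact (hm i₀).1

/-- Proximal extensions. -/
theorem prox_step [Nonempty X] {T : X ≃ₜ X} {S : Y ≃ₜ Y} {π : X → Y}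
    (hmin : ∀ x, OC (it T) x = univ) (hminY : ∀ y, OC (it S) y = univ)
    (hπ : Continuous π) (hsur : Function.Surjective π) (he : ∀ x, π (T x) = S (π x))
    (hp : ProxExt T π) {a : ℕ → ℤ} (ha : ∀ j, a j ≠ 0) (hY : DM S a ∈ residual Y) :
    DM T a ∈ residual X := by
  classical
  have hρ := (pr_act T a).isAct
  have hθ := (pr_act S a).isAct
  have hρ2 := (pr2_act T a).isAct
  have hθ2 := (pr2_act S a).isAct
  set ρ := pact (pr T a) with hρd
  set θ := pact (pr S a) with hθd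
  let P : (ℕ → X) → (ℕ → Y) := fun z j => π (z j)
  have hP : Continuous P := continuous_pi fun j => hπ.comp (continuous_apply j)
  have heP : ∀ n z, P (ρ n z) = θ n (P z) := fun n z => funext fun j => it_map he _ _
  have heP2 : ∀ n z, P (pact (pr2 T a) n z) = pact (pr2 S a) n (P z) :=
    fun n z => funext fun j => it_map he _ _
  let Zy : Y → Set (ℕ → Y) := fun y => OC θ (dg y)
  let My : Y → Set (ℕ → X) := fun y => {z | MinPt ρ z ∧ P z ∈ Zy y}
  -- the unique minimal set above `Zy y`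
  have hM1 : ∀ y ∈ DM S a, ∀ F : Set (ℕ → X), IsClosed F → F.Nonempty →
      (∀ g, ∀ z ∈ F, ρ g z ∈ F) → F ⊆ P ⁻¹' Zy y → MinSet ρ (My y) ∧ My y ⊆ F := by
    intro y hy F hF hFne hFinv hFsub
    have hZ : MinSet θ (Zy y) := MinPt.minSet hθ hy
    obtain ⟨M₀, hM₀F, hM₀⟩ := exists_minSet hρ hF hFne hFinv
    obtain ⟨z₀, hz₀⟩ := hM₀.ne
    have himg : ∀ z, P z ∈ Zy y → P '' OC ρ z = Zy y := by
      intro z hz
      rw [OC_image hP heP, hZ.eq hθ hz]
    have hMy : My y = M₀ := by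
      refine Subset.antisymm ?_ ?_
      · rintro z ⟨hz1, hz2⟩
        have h1 : OC ρ z = OC ρ z₀ := prox_unique hπ he hp ha (hz1.minSet hρ)
          ((hM₀.minPt hρ hz₀).minSet hρ) (by
            show P '' OC ρ z = P '' OC ρ z₀
            rw [himg z hz2, himg z₀ (hFsub (hM₀F hz₀))])
        rw [hM₀.eq hρ hz₀] at h1
        rw [← h1]
        exact mem_OC hρ z
      · intro z hz
        exact ⟨hM₀.minPt hρ hz, hFsub (hM₀F hz)⟩
    rw [hMy]
    exact ⟨hM₀, hM₀F⟩
  have hM2 : ∀ y ∈ DM S a, MinSet ρ (My y) := by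
    intro y hy
    obtain ⟨x, rfl⟩ := hsur y
    refine (hM1 _ hy (P ⁻¹' Zy (π x)) ((OC_closed _).preimage hP) ⟨dg x, mem_OC hθ _⟩ ?_
      Subset.rfl).1
    intro g z hz
    show P (ρ g z) ∈ Zy (π x)
    rw [heP]
    exact OC_inv hθ hz g
  -- the first good set
  let RZ : Set (Y × (ℕ → Y)) := {p | p.2 ∈ Zy p.1}
  let G1 : Set Y := {y | y ∈ DM S a ∧ ∀ w, (y, w) ∈ closure RZ → w ∈ Zy y}
  have hG1 : G1 ∈ residual Y := by
    have := fort (Set.univ : Set Y) RZ (fun _ _ => mem_univ _) (fun y _ => by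
        have h1 : {z | (y, z) ∈ RZ} = Zy y := by
          ext z
          exact Iff.rfl
        rw [h1]
        exact OC_closed _) (by
      intro V hV
      refine ⟨⋃ n : ℤ, (fun y => θ n (dg y)) ⁻¹' V, isOpen_iUnion fun n =>
        hV.preimage ((hθ.cont n).comp continuous_dg), fun y _ => ?_⟩
      constructor
      · intro hy
        obtain ⟨n, hn⟩ := mem_iUnion.1 hy
        exact ⟨θ n (dg y), hn, orb_mem n _⟩
      · rintro ⟨z, hz, hzR⟩
        obtain ⟨_, h1, ⟨n, rfl⟩⟩ := mem_closure_iff.1 hzR V hV hz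
        exact mem_iUnion.2 ⟨n, h1⟩)
    filter_upwards [hY, this] with y hy1 hy2
    exact ⟨hy1, fun w hw => hy2 (mem_univ _) w hw⟩
  -- the relation `R`
  let R : Set (Y × (ℕ → X)) := {p | p.1 ∈ G1 ∧ p.2 ∈ My p.1}
  let C : Set Y := {y | y ∈ G1 ∧ ∀ z, (y, z) ∈ closure R → z ∈ My y}
  have hC : C ∈ residual Y := by
    have := fort G1 R (fun p hp => hp.1) (fun y hy => by
        have h1 : {z | (y, z) ∈ R} = My y := by
          ext z
          exact ⟨fun h => h.2, fun h => ⟨hy, h⟩⟩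
        rw [h1]
        exact (hM2 y hy.1).closed) (by
      intro V hV
      refine ⟨(closure {y | y ∈ G1 ∧ ∀ z ∈ V, z ∉ My y})ᶜ, isClosed_closure.isOpen_compl,
        fun y₀ hy₀ => ?_⟩
      constructor
      · intro hy
        by_contra hcon
        push Not at hcon
        exact hy (subset_closure ⟨hy₀, fun z hz hzM => hcon z hz ⟨hy₀, hzM⟩⟩)
      · rintro ⟨z₁, hz₁V, _, hz₁⟩ hy
        let RS : Set (Y × (ℕ → X)) := {p | (p.1 ∈ G1 ∧ ∀ z ∈ V, z ∉ My p.1) ∧ p.2 ∈ My p.1}
        have hF0 : IsClosed {z | (y₀, z) ∈ closure RS} :=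
          isClosed_closure.preimage (Continuous.prodMk_right y₀)
        have hFne : {z | (y₀, z) ∈ closure RS}.Nonempty := by
          have h1 : IsClosed (Prod.fst '' closure RS) :=
            (isClosed_closure.isCompact.image continuous_fst).isClosed
          have h2 : closure {y | y ∈ G1 ∧ ∀ z ∈ V, z ∉ My y} ⊆ Prod.fst '' closure RS := by
            refine closure_minimal ?_ h1
            rintro y ⟨hy1, hy2⟩
            obtain ⟨z, hz⟩ := (hM2 y hy1.1).ne
            exact ⟨(y, z), subset_closure ⟨⟨hy1, hy2⟩, hz⟩, rfl⟩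
          obtain ⟨⟨y, z⟩, hz, rfl⟩ := h2 hy
          exact ⟨z, hz⟩
        have hFinv : ∀ g, ∀ z ∈ {z | (y₀, z) ∈ closure RS}, ρ g z ∈ {z | (y₀, z) ∈ closure RS} := by
          intro g z hz
          refine map_mem_closure (f := fun p : Y × (ℕ → X) => (p.1, ρ g p.2))
            (continuous_fst.prodMk ((hρ.cont g).comp continuous_snd)) hz ?_
          rintro p ⟨hp1, hp2⟩
          exact ⟨hp1, (hM2 _ hp1.1.1).inv g _ hp2⟩
        have hFsub : {z | (y₀, z) ∈ closure RS} ⊆ P ⁻¹' Zy y₀ := by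
          intro z hz
          refine hy₀.2 _ ?_
          refine map_mem_closure (f := fun p : Y × (ℕ → X) => (p.1, P p.2))
            (continuous_fst.prodMk (hP.comp continuous_snd)) hz ?_
          rintro p ⟨_, hp2⟩
          exact hp2.2
        have h3 := (hM1 y₀ hy₀.1 _ hF0 hFne hFinv hFsub).2 hz₁
        obtain ⟨⟨y', z'⟩, ⟨_, hz'V⟩, hR'⟩ := mem_closure_iff.1 h3 (Set.univ ×ˢ V)
          (isOpen_univ.prod hV) ⟨mem_univ _, hz₁V⟩
        exact hR'.1.2 z' hz'V hR'.2)
    filter_upwards [hG1, this] with y hy1 hy2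
    exact ⟨hy1, fun w hw => (hy2 hy1 w hw).2⟩
  -- invariance
  have hDMinv : ∀ (n : ℤ) (y : Y), y ∈ DM S a → it S n y ∈ DM S a := by
    intro n y hy
    show MinPt θ (dg (it S n y))
    rw [dg_map S a]
    refine MinPt.map (hθ2.cont _) (fun k z => ?_) hy
    rw [hθd, pr_eq_pr2, pr_eq_pr2, pr2_comm]
  have hZinv : ∀ (p : ℤ × ℤ) (y : Y) (w : ℕ → Y), w ∈ Zy y →
      pact (pr2 S a) p w ∈ Zy (it S p.1 y) := by
    intro p y w hw
    have h1 : pact (pr2 S a) p w ∈ OC θ (pact (pr2 S a) p (dg y)) :=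
      OC_map (hθ2.cont _) (fun k z => by rw [hθd, pr_eq_pr2, pr_eq_pr2, pr2_comm]) hw
    have h2 : pact (pr2 S a) p (dg y) = θ p.2 (dg (it S p.1 y)) := by
      rw [hθd, pr_eq_pr2, dg_map S a, ← hθ2.add]
      congr 1
      simp
    rw [h2] at h1
    exact OC_mono hθ (orb_mem _ _) h1
  have hG1inv : ∀ (n : ℤ) (y : Y), y ∈ G1 → it S n y ∈ G1 := by
    rintro n y ⟨hy1, hy2⟩
    refine ⟨hDMinv n y hy1, fun w hw => ?_⟩
    have h1 : (it S (-n) (it S n y), pact (pr2 S a) (-n, 0) w) ∈ closure RZ := by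
      refine map_mem_closure (f := fun p : Y × (ℕ → Y) => (it S (-n) p.1, pact (pr2 S a) (-n, 0) p.2))
        ((((it_act S).cont _).comp continuous_fst).prodMk ((hθ2.cont _).comp continuous_snd)) hw ?_
      rintro p hp
      exact hZinv (-n, 0) _ _ hp
    rw [(it_act S).neg_cancel] at h1
    have h2 := hZinv (n, 0) _ _ (hy2 _ h1)
    rw [← hθ2.add, show ((n, 0) : ℤ × ℤ) + (-n, 0) = 0 from by ext <;> simp, hθ2.zero] at h2
    exact h2
  have hRinv : ∀ (p : ℤ × ℤ), ∀ q ∈ closure R,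
      (it S p.1 q.1, pact (pr2 T a) p q.2) ∈ closure R := by
    intro p q hq
    refine map_mem_closure (f := fun q : Y × (ℕ → X) => (it S p.1 q.1, pact (pr2 T a) p q.2))
        ((((it_act S).cont _).comp continuous_fst).prodMk ((hρ2.cont _).comp continuous_snd)) hq ?_
    rintro q ⟨hq1, hq2⟩
    refine ⟨hG1inv _ _ hq1, MinPt.map (hρ2.cont _) (fun k z => ?_) hq2.1, ?_⟩
    · rw [hρd, pr_eq_pr2, pr_eq_pr2, pr2_comm]
    · show P (pact (pr2 T a) p q.2) ∈ Zy (it S p.1 q.1)
      rw [heP2]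
      exact hZinv p _ _ hq2.2
  -- Glasner's theorem
  obtain ⟨x₀⟩ := ‹Nonempty X›
  have hN := glasner hmin a x₀
  set N := OC (pact (pr2 T a)) (dg x₀) with hNd
  have hdgN : ∀ x : X, dg x ∈ N := by
    intro x
    have h1 : x ∈ OC (it T) x₀ := by rw [hmin]; trivial
    have h2 : dg x ∈ closure N := by
      refine map_mem_closure continuous_dg h1 ?_
      rintro _ ⟨k, rfl⟩
      show dg (it T k x₀) ∈ N
      rw [dg_map T a]
      exact orb_mem _ _
    rwa [hN.closed.closure_eq] at h2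
  have hRN : ∀ q ∈ closure R, q.2 ∈ N := by
    intro q hq
    have h1 : q.2 ∈ closure N := by
      refine map_mem_closure continuous_snd hq ?_
      rintro ⟨y, z⟩ ⟨hy, hz⟩
      obtain ⟨x, rfl⟩ := hsur y
      have h2 : My (π x) ⊆ OC ρ (dg x) := by
        refine (hM1 _ hy.1 (OC ρ (dg x)) (OC_closed _) ⟨_, mem_OC hρ _⟩
          (fun g _ h => OC_inv hρ h g) ?_).2
        intro z hz
        exact OC_map hP heP hz
      have h3 : OC ρ (dg x) ⊆ N := by
        refine OC_sub hN.closed (fun g z hz => ?_) (hdgN x)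
        rw [hρd, pr_eq_pr2]
        exact hN.inv _ z hz
      exact h3 (h2 hz)
    rwa [hN.closed.closure_eq] at h1
  have hYne : Nonempty Y := ⟨π x₀⟩
  obtain ⟨y₀, hy₀⟩ : ∃ y₀, (y₀, dg x₀) ∈ closure R := by
    obtain ⟨y₁, hy₁⟩ := (dense_of_mem_residual hG1).nonempty
    obtain ⟨z₁, hz₁⟩ := (hM2 y₁ hy₁.1).ne
    have h1 : (y₁, z₁) ∈ closure R := subset_closure ⟨hy₁, hz₁⟩
    have h2 : N ⊆ Prod.snd '' closure R := by
      refine hN.sub_of_mem hρ2 ((isClosed_closure.isCompact.image continuous_snd).isClosed) ?_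
        (hRN _ h1) ⟨_, h1, rfl⟩
      rintro g _ ⟨q, hq, rfl⟩
      exact ⟨_, hRinv g q hq, rfl⟩
    obtain ⟨⟨y, z⟩, hq, hqe⟩ := h2 (hdgN x₀)
    refine ⟨y, ?_⟩
    rw [← hqe]
    exact hq
  -- the joining
  let κ : ℤ → Y × X → Y × X := fun n q => (it S n q.1, it T n q.2)
  have hκ : IsAct κ :=
    { zero := fun q => Prod.ext ((it_act S).zero _) ((it_act T).zero _)
      add := fun g h q => Prod.ext ((it_act S).add g h _) ((it_act T).add g h _)
      cont := fun g => (((it_act S).cont _).comp continuous_fst).prodMk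
        (((it_act T).cont _).comp continuous_snd) }
  obtain ⟨A₀, hA₀A, hA₀⟩ := exists_minSet hκ (A := {q : Y × X | (q.1, dg q.2) ∈ closure R})
    (isClosed_closure.preimage (continuous_fst.prodMk (continuous_dg.comp continuous_snd)))
    ⟨(y₀, x₀), hy₀⟩ (by
      intro g q hq
      show (it S g q.1, dg (it T g q.2)) ∈ closure R
      rw [dg_map T a]
      exact hRinv (g, 0) _ hq)
  have : CompactSpace A₀ := isCompact_iff_compactSpace.1 hA₀.closed.isCompact
  let κ₀ : ℤ → A₀ → A₀ := fun g w => ⟨κ g w, hA₀.inv g w w.2⟩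
  have hκ₀ : IsAct κ₀ :=
    { zero := fun q => Subtype.ext (hκ.zero _)
      add := fun g h q => Subtype.ext (hκ.add g h _)
      cont := fun g => ((hκ.cont g).comp continuous_subtype_val).subtype_mk _ }
  have hmin₀ : ∀ q, OC κ₀ q = univ := fun q => subtype_minimal hA₀ q
  let fY : A₀ → Y := fun q => q.1.1
  let fX : A₀ → X := fun q => q.1.2
  have hfY : Continuous fY := continuous_fst.comp continuous_subtype_val
  have hfX : Continuous fX := continuous_snd.comp continuous_subtype_val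
  have hsY : Function.Surjective fY := by
    intro y
    have h1 := eq_univ_of_minSet (it_act S) hminY
      (hA₀.map hκ (f := Prod.fst) (θ := it S) continuous_fst (fun g z => rfl))
    have h2 : y ∈ Prod.fst '' A₀ := by rw [h1]; trivial
    obtain ⟨q, hq, rfl⟩ := h2
    exact ⟨⟨q, hq⟩, rfl⟩
  have hsX : Function.Surjective fX := by
    intro x
    have h1 := eq_univ_of_minSet (it_act T) hmin
      (hA₀.map hκ (f := Prod.snd) (θ := it T) continuous_snd (fun g z => rfl))
    have h2 : x ∈ Prod.snd '' A₀ := by rw [h1]; trivial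
    obtain ⟨q, hq, rfl⟩ := h2
    exact ⟨⟨q, hq⟩, rfl⟩
  have hD : fY ⁻¹' C ∈ residual A₀ := residual_preimage hfY
    (semiOpen_of_minimal hκ₀ (it_act S) hmin₀ hfY hsY (fun g q => rfl)) hC
  have hD2 : fX '' (fY ⁻¹' C) ∈ residual X := residual_image hfX hsX
    (semiOpen_of_minimal hκ₀ (it_act T) hmin₀ hfX hsX (fun g q => rfl)) hD
  refine mem_of_superset hD2 ?_
  rintro _ ⟨q, hq, rfl⟩
  exact (hq.2 _ (hA₀A q.2)).1

end Pool.Agent.Q67.PI
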