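import Pool.Agent.Q67.PI.Tower

open Set Filter Topology

set_option autoImplicit false

namespace Pool.Agent.Q67.PI

/-- Return times of minimal points are syndetic. -/
theorem syndetic_of_minimalPoint {Z : Type*} [TopologicalSpace Z] [CompactSpace Z] {S : Z ≃ₜ Z}
    {z : Z} (h : MinimalPoint S z) {V : Set Z} (hV : V ∈ 𝓝 z) :
    ∃ K : ℕ, ∀ m : ℤ, ∃ j : ℕ, j ≤ K ∧ (S ^ (m + j)) z ∈ V := by
  have hS := it_act S
  have hcov : orbitClosure S z ⊆ ⋃ n : ℤ, it S n ⁻¹' interior V := by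
    intro w hw
    have h1 : z ∈ orbitClosure S w := by
      rw [h w hw]
      exact mem_OC hS z
    obtain ⟨_, h2, ⟨n, rfl⟩⟩ := mem_closure_iff.1 h1 (interior V) isOpen_interior
      (mem_interior_iff_mem_nhds.2 hV)
    exact mem_iUnion.2 ⟨n, h2⟩
  have hc : IsCompact (orbitClosure S z) := isClosed_closure.isCompact
  obtain ⟨F, hF⟩ := hc.elim_finite_subcover _
    (fun n : ℤ => isOpen_interior.preimage (hS.cont n)) hcov
  refine ⟨2 * F.sup Int.natAbs, fun m => ?_⟩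
  have h3 := hF (orb_mem (ρ := it S) (m + (F.sup Int.natAbs : ℕ)) z)
  simp only [mem_iUnion, exists_prop] at h3
  obtain ⟨n, hn, h4⟩ := h3
  have h5 := Finset.le_sup (f := Int.natAbs) hn
  refine ⟨((F.sup Int.natAbs : ℕ) + n : ℤ).toNat, by omega, ?_⟩
  have h6 : (((F.sup Int.natAbs : ℕ) + n : ℤ).toNat : ℤ) = (F.sup Int.natAbs : ℕ) + n :=
    Int.toNat_of_nonneg (by omega)
  rw [h6]
  have h7 := interior_subset h4
  rw [← hS.add] at h7
  rwa [show n + (m + ((F.sup Int.natAbs : ℕ) : ℤ)) = m + ((F.sup Int.natAbs : ℕ) + n) by ring] at h7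

/-- From `∏ T^(a i)` on `X^2` to `T × T²` on `X × X`. -/
theorem minimalPoint_pair {X : Type*} [TopologicalSpace X] [CompactSpace X] [T2Space X]
    {T : X ≃ₜ X} {x : X}
    (h : MinimalPoint (powers T fun i : Fin 2 => ((i : ℕ) : ℤ) + 1) fun _ => x) :
    MinimalPoint (T.prodCongr (T ^ 2)) (x, x) := by
  have h1 : MinPt (it (powers T fun i : Fin 2 => ((i : ℕ) : ℤ) + 1)) fun _ => x := by
    intro w hw
    have := h w hw
    rw [show OC (it (powers T fun i : Fin 2 => ((i : ℕ) : ℤ) + 1)) w = _ from this]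
    exact mem_OC (it_act _) _
  refine minimalPoint_of ?_
  refine MinPt.map (f := fun z : Fin 2 → X => (z 0, z 1)) (by fun_prop) (fun n z => ?_) h1
  refine it_map (π := fun z : Fin 2 → X => (z 0, z 1)) (fun z => ?_) n z
  refine Prod.ext ?_ ?_
  · show (T ^ (((0 : Fin 2) : ℕ) + 1 : ℤ)) (z 0) = T (z 0)
    simp
  · show (T ^ (((1 : Fin 2) : ℕ) + 1 : ℤ)) (z 1) = (T ^ 2) (z 1)
    norm_num

end Pool.Agent.Q67.PI
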